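import Pool.Agent.P.MP_2f3b43_co.Main

namespace Pool.Agent.Results.MP_2f3b43_co.ExactOrder

open Pool.Agent.P.MP_2f3b43_co

/-- For `0 < δ ≤ 1` and real `b`: every monotone class with balanced separators of order
`O(n ^ (1 - δ))` has expansion `O(r ^ b)` if and only if `b ≥ 1 / δ - 1`. -/
theorem result (δ : ℝ) (h0 : 0 < δ) (h1 : δ ≤ 1) (b : ℝ) :
    (∀ C : GClass, Mono C → SepBound C (1 - δ) → ExpBound C b) ↔ 1 / δ - 1 ≤ b :=
  ⟨low δ h0 h1 b, upper δ h0 h1 b⟩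

end Pool.Agent.Results.MP_2f3b43_co.ExactOrder
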